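import Pool.Agent.Helper86.TC8.Stmts
import Pool.Agent.Helper86.TC8.Base

/-!
Large girth cubic graphs are 4-total-colourable: families of words for the existence of the centres
(rows STA1, STA2 of the blueprint).
-/

set_option autoImplicit false

namespace Pool.Agent.Helper60.TC8

open Pool.Agent.Helper86.TC8
open Finset
open scoped Classical

variable {V : Type}

/-! ### spread words -/

/-- the reduced forms of the extensions of the two words by at most `D` letters are different -/
def Spread (D : ℕ) (W W' : List L) : Prop :=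
  ∀ v v' : List L, v.length ≤ D → v'.length ≤ D → rdc (v ++ W) ≠ rdc (v' ++ W')

theorem drop_one_suffix_rc (a : L) (X : List L) : X.drop 1 <:+ rc a X := by
  cases X with
  | nil => simp [rc]
  | cons c w =>
    simp only [rc, List.drop_succ_cons, List.drop_zero]
    split
    · exact List.suffix_refl w
    · exact ⟨[a, c], rfl⟩

theorem suffix_drop_one {S X : List L} (h : S <:+ X) : S.drop 1 <:+ X.drop 1 := by
  obtain ⟨p, rfl⟩ := h
  cases p with
  | nil => exact List.suffix_refl _
  | cons c p =>
    simp only [List.cons_append, List.drop_succ_cons, List.drop_zero]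
    exact (List.drop_suffix 1 S).trans (List.suffix_append p S)

theorem drop_suffix_rdc {W : List L} (hW : Red W) (v : List L) :
    W.drop v.length <:+ rdc (v ++ W) := by
  induction v with
  | nil => simp [rdc_of_red hW]
  | cons a v ih =>
    have h1 := suffix_drop_one ih
    have h2 := drop_one_suffix_rc a (rdc (v ++ W))
    have h3 : W.drop (a :: v).length = (W.drop v.length).drop 1 := by
      rw [List.drop_drop]
      rfl
    rw [h3]
    exact h1.trans h2

/-- two words which differ before a common suffix, far from the start -/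
def Sp (D : ℕ) (W W' : List L) : Prop :=
  ∃ (P P' C : List L) (c c' : L), W = P ++ c :: C ∧ W' = P' ++ c' :: C ∧ c ≠ c' ∧
    D ≤ P.length ∧ D ≤ P'.length

theorem suffix_of_Sp {D : ℕ} {W P C : List L} {c : L} (hW : Red W) (h : W = P ++ c :: C)
    (hP : D ≤ P.length) {v : List L} (hv : v.length ≤ D) : (c :: C) <:+ rdc (v ++ W) := by
  refine List.IsSuffix.trans ?_ (drop_suffix_rdc hW v)
  rw [h, List.drop_append_of_le_length (hv.trans hP)]
  exact List.suffix_append _ _

theorem spread_of_Sp {D : ℕ} {W W' : List L} (hW : Red W) (hW' : Red W') (h : Sp D W W') :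
    Spread D W W' := by
  obtain ⟨P, P', C, c, c', h1, h2, h3, h4, h5⟩ := h
  intro v v' hv hv' he
  have a1 := suffix_of_Sp hW h1 h4 hv
  have a2 := suffix_of_Sp hW' h2 h5 hv'
  rw [← he] at a2
  have a3 : (c :: C) <:+ (c' :: C) := List.suffix_of_suffix_length_le a1 a2 (by simp)
  have a4 := a3.eq_of_length (by simp)
  exact h3 (List.cons.inj a4).1

theorem spread_of_length {D : ℕ} {W W' : List L} (hW' : Red W')
    (h : W.length + 2 * D < W'.length) : Spread D W W' := by
  intro v v' hv hv' he
  have a1 := length_rdc_le (v ++ W)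
  have a2 := (drop_suffix_rdc hW' v').length_le
  rw [← he, List.length_drop] at a2
  rw [List.length_append] at a1
  omega

theorem Spread.symm {D : ℕ} {W W' : List L} (h : Spread D W W') : Spread D W' W :=
  fun v v' hv hv' he => h v' v hv' hv he.symm

theorem Spread.ne {D : ℕ} {W W' : List L} (h : Spread D W W') : W ≠ W' :=
  fun he => h [] [] (Nat.zero_le _) (Nat.zero_le _) (by rw [he])

/-- a good family of words -/
structure Fam (D N m : ℕ) (F : Finset (List L)) : Prop where
  card : F.card = m
  red : ∀ W ∈ F, Red W
  len : ∀ W ∈ F, W.length ≤ N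
  spread : ∀ W ∈ F, ∀ W' ∈ F, W ≠ W' → Spread D W W'

/-! ### reducedness -/

theorem red_rep {c : L} (hc : c ≠ c.inv) {w : List L} (h : Red (c :: w)) :
    ∀ k : ℕ, Red (List.replicate k c ++ c :: w)
  | 0 => h
  | 1 => ⟨hc, h⟩
  | k + 2 => ⟨hc, red_rep hc h (k + 1)⟩

/-! ### forward words -/

/-- one block (the letter `n` is applied first) -/
def blkF (q : ℕ) (β : Bool) : List L := List.replicate q L.b ++ (if β then [L.n] else [])

/-- the word of a list of blocks (the head of the list is applied first) -/
def wF (q : ℕ) : List Bool → List L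
  | [] => []
  | β :: l => wF q l ++ blkF q β

/-- the path of a block -/
def pF (q : ℕ) (β : Bool) : List Bool :=
  if β then true :: true :: List.replicate (q - 2) false else List.replicate q false

/-- the path of a list of blocks -/
def ppF (q : ℕ) : List Bool → List Bool
  | [] => []
  | β :: l => pF q β ++ ppF q l

theorem length_blkF (q : ℕ) (β : Bool) : (blkF q β).length ≤ q + 1 := by
  cases β <;> simp [blkF]

theorem length_wF (q : ℕ) (l : List Bool) : (wF q l).length ≤ l.length * (q + 1) := by
  induction l with
  | nil => simp [wF]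
  | cons β l ih =>
    have := length_blkF q β
    simp only [wF, List.length_append, List.length_cons]
    nlinarith

theorem length_pF (q : ℕ) (hq : 2 ≤ q) (β : Bool) : (pF q β).length = q := by
  cases β
  · simp [pF]
  · simp [pF]
    omega

theorem length_ppF (q : ℕ) (hq : 2 ≤ q) (l : List Bool) : (ppF q l).length = l.length * q := by
  induction l with
  | nil => simp [ppF]
  | cons β l ih =>
    simp only [ppF, List.length_append, List.length_cons, length_pF q hq, ih]
    ring

theorem red_wF_b (q : ℕ) (hq : 1 ≤ q) (l : List Bool) : Red (wF q l ++ [L.b]) := by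
  induction l with
  | nil => exact red_single _
  | cons β l ih =>
    obtain ⟨k, rfl⟩ : ∃ k, q = k + 1 := ⟨q - 1, by omega⟩
    have h1 : wF (k + 1) (β :: l) ++ [L.b] =
        wF (k + 1) l ++ L.b :: (List.replicate k L.b ++ ((if β then [L.n] else []) ++ [L.b])) := by
      simp [wF, blkF, List.replicate_succ, List.append_assoc]
    rw [h1]
    apply red_glue ih
    have h2 : L.b :: (List.replicate k L.b ++ ((if β then [L.n] else []) ++ [L.b])) =
        List.replicate k L.b ++ L.b :: ((if β then [L.n] else []) ++ [L.b]) := by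
      rw [← List.cons_append, ← List.replicate_succ, List.replicate_succ', List.append_assoc]
      rfl
    rw [h2]
    apply red_rep (by decide)
    cases β
    · exact ⟨by decide, trivial⟩
    · exact ⟨by decide, by decide, trivial⟩

theorem red_wF (q : ℕ) (hq : 1 ≤ q) (l : List Bool) : Red (wF q l) :=
  (red_wF_b q hq l).of_append_left

theorem sp_wF (D q : ℕ) (hq : D + 1 ≤ q) : ∀ l l' : List Bool, l.length = l'.length → l ≠ l' →
    Sp D (wF q l) (wF q l') := by
  intro l
  induction l with
  | nil =>
    intro l' h1 h2
    cases l' with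
    | nil => exact absurd rfl h2
    | cons β l' => simp at h1
  | cons β l ih =>
    intro l' h1 h2
    cases l' with
    | nil => simp at h1
    | cons β' l' =>
      have h1' : l.length = l'.length := by simpa using h1
      by_cases hβ : β = β'
      · subst hβ
        have h3 : l ≠ l' := fun he => h2 (by rw [he])
        obtain ⟨P, P', C, c, c', e1, e2, e3, e4, e5⟩ := ih l' h1' h3
        exact ⟨P, P', C ++ blkF q β, c, c', by simp [wF, e1], by simp [wF, e2], e3, e4, e5⟩
      · obtain ⟨k, rfl⟩ : ∃ k, q = k + 1 := ⟨q - 1, by omega⟩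
        have hk : D ≤ k := by omega
        cases β <;> cases β'
        · exact absurd rfl hβ
        · refine ⟨wF (k + 1) l ++ List.replicate k L.b, wF (k + 1) l' ++ List.replicate (k + 1) L.b,
            [], L.b, L.n, ?_, ?_, by decide, ?_, ?_⟩
          · simp [wF, blkF, List.replicate_succ']
          · simp [wF, blkF]
          · simp; omega
          · simp; omega
        · refine ⟨wF (k + 1) l ++ List.replicate (k + 1) L.b, wF (k + 1) l' ++ List.replicate k L.b,
            [], L.n, L.b, ?_, ?_, by decide, ?_, ?_⟩
          · simp [wF, blkF]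
          · simp [wF, blkF, List.replicate_succ']
          · simp; omega
          · simp; omega
        · exact absurd rfl hβ

theorem walkF_rep (G : CG V) (k : ℕ) (x : V) :
    walkF G (List.replicate k false) (true, x) = (true, act G (List.replicate k L.b) x) := by
  induction k generalizing x with
  | zero => rfl
  | succ k ih =>
    rw [List.replicate_succ, List.replicate_succ', act_append]
    exact ih (G.bw x)

theorem walkF_pF (G : CG V) (q : ℕ) (hq : 2 ≤ q) (β : Bool) (x : V) :
    walkF G (pF q β) (true, x) = (true, act G (blkF q β) x) := by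
  cases β
  · simpa [pF, blkF] using walkF_rep G q x
  · obtain ⟨k, rfl⟩ : ∃ k, q = k + 2 := ⟨q - 2, by omega⟩
    have h1 : act G (blkF (k + 2) true) x =
        act G (List.replicate k L.b) (G.bw (G.bw (G.nu x))) := by
      simp only [blkF, if_true, act_append]
      rw [List.replicate_add, act_append]
      rfl
    rw [h1]
    have h2 := walkF_rep G k (G.bw (G.bw (G.nu x)))
    simpa [pF, walkF, fwd] using h2

theorem walkF_ppF (G : CG V) (q : ℕ) (hq : 2 ≤ q) (l : List Bool) (x : V) :
    walkF G (ppF q l) (true, x) = (true, act G (wF q l) x) := by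
  induction l generalizing x with
  | nil => rfl
  | cons β l ih => rw [ppF, walkF_append, walkF_pF G q hq, ih, wF, act_append]

theorem Z_walkF {G : CG V} {Z : V → Bool} : ∀ (l l' : List Bool) (h : WS V),
    avoidF G Z (l ++ l') h → Z (walkF G l h).2 = false
  | [], [], _, h1 => h1
  | [], _ :: _, _, h1 => h1.1
  | _ :: l, l', _, h1 => Z_walkF l l' _ h1.2

/-! ### backward words -/

/-- one block -/
def blkB (q : ℕ) (β : Bool) : List L :=
  List.replicate q L.f ++ ((if β then [L.n] else []) ++ [L.f, L.f])

/-- the word of a list of blocks (the head of the list is applied first) -/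
def wB (q : ℕ) : List Bool → List L
  | [] => []
  | β :: l => wB q l ++ blkB q β

/-- the path of a block -/
def pB (q : ℕ) (β : Bool) : List Bool :=
  if β then false :: true :: List.replicate q true else List.replicate (q + 2) true

/-- the path of a list of blocks -/
def ppB (q : ℕ) : List Bool → List Bool
  | [] => []
  | β :: l => pB q β ++ ppB q l

theorem length_blkB (q : ℕ) (β : Bool) : (blkB q β).length ≤ q + 3 := by
  cases β <;> simp [blkB]

theorem length_wB (q : ℕ) (l : List Bool) : (wB q l).length ≤ l.length * (q + 3) := by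
  induction l with
  | nil => simp [wB]
  | cons β l ih =>
    have := length_blkB q β
    simp only [wB, List.length_append, List.length_cons]
    nlinarith

theorem length_pB (q : ℕ) (β : Bool) : (pB q β).length = q + 2 := by
  cases β <;> simp [pB]

theorem length_ppB (q : ℕ) (l : List Bool) : (ppB q l).length = l.length * (q + 2) := by
  induction l with
  | nil => simp [ppB]
  | cons β l ih =>
    simp only [ppB, List.length_append, List.length_cons, length_pB q, ih]
    ring

theorem red_wB_f (q : ℕ) (hq : 1 ≤ q) (l : List Bool) : Red (wB q l ++ [L.f]) := by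
  induction l with
  | nil => exact red_single _
  | cons β l ih =>
    obtain ⟨k, rfl⟩ : ∃ k, q = k + 1 := ⟨q - 1, by omega⟩
    have h1 : wB (k + 1) (β :: l) ++ [L.f] =
        wB (k + 1) l ++ L.f :: (List.replicate k L.f ++
          ((if β then [L.n] else []) ++ [L.f, L.f, L.f])) := by
      simp [wB, blkB, List.replicate_succ, List.append_assoc]
    rw [h1]
    apply red_glue ih
    have h2 : L.f :: (List.replicate k L.f ++ ((if β then [L.n] else []) ++ [L.f, L.f, L.f])) =
        List.replicate k L.f ++ L.f :: ((if β then [L.n] else []) ++ [L.f, L.f, L.f]) := by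
      rw [← List.cons_append, ← List.replicate_succ, List.replicate_succ', List.append_assoc]
      rfl
    rw [h2]
    apply red_rep (by decide)
    cases β
    · exact ⟨by decide, by decide, by decide, trivial⟩
    · exact ⟨by decide, by decide, by decide, by decide, trivial⟩

theorem red_wB (q : ℕ) (hq : 1 ≤ q) (l : List Bool) : Red (wB q l) :=
  (red_wB_f q hq l).of_append_left

theorem sp_wB (D q : ℕ) (hq : D + 1 ≤ q) : ∀ l l' : List Bool, l.length = l'.length → l ≠ l' →
    Sp D (wB q l) (wB q l') := by
  intro l
  induction l with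
  | nil =>
    intro l' h1 h2
    cases l' with
    | nil => exact absurd rfl h2
    | cons β l' => simp at h1
  | cons β l ih =>
    intro l' h1 h2
    cases l' with
    | nil => simp at h1
    | cons β' l' =>
      have h1' : l.length = l'.length := by simpa using h1
      by_cases hβ : β = β'
      · subst hβ
        have h3 : l ≠ l' := fun he => h2 (by rw [he])
        obtain ⟨P, P', C, c, c', e1, e2, e3, e4, e5⟩ := ih l' h1' h3
        exact ⟨P, P', C ++ blkB q β, c, c', by simp [wB, e1], by simp [wB, e2], e3, e4, e5⟩
      · obtain ⟨k, rfl⟩ : ∃ k, q = k + 1 := ⟨q - 1, by omega⟩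
        have hk : D ≤ k := by omega
        cases β <;> cases β'
        · exact absurd rfl hβ
        · refine ⟨wB (k + 1) l ++ List.replicate k L.f, wB (k + 1) l' ++ List.replicate (k + 1) L.f,
            [L.f, L.f], L.f, L.n, ?_, ?_, by decide, ?_, ?_⟩
          · simp [wB, blkB, List.replicate_succ']
          · simp [wB, blkB]
          · simp; omega
          · simp; omega
        · refine ⟨wB (k + 1) l ++ List.replicate (k + 1) L.f, wB (k + 1) l' ++ List.replicate k L.f,
            [L.f, L.f], L.n, L.f, ?_, ?_, by decide, ?_, ?_⟩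
          · simp [wB, blkB]
          · simp [wB, blkB, List.replicate_succ']
          · simp; omega
          · simp; omega
        · exact absurd rfl hβ

theorem walkB_rep (G : CG V) (k : ℕ) (x : V) :
    walkB G (List.replicate k true) (true, x) = (true, act G (List.replicate k L.f) x) := by
  induction k generalizing x with
  | zero => rfl
  | succ k ih =>
    rw [List.replicate_succ, List.replicate_succ', act_append]
    exact ih (G.fw x)

theorem walkB_pB (G : CG V) (q : ℕ) (β : Bool) (x : V) :
    walkB G (pB q β) (true, x) = (true, act G (blkB q β) x) := by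
  cases β
  · have h1 : act G (blkB q false) x = act G (List.replicate (q + 2) L.f) x := by
      rw [List.replicate_add]
      rfl
    rw [h1]
    simpa [pB] using walkB_rep G (q + 2) x
  · have h1 : act G (blkB q true) x =
        act G (List.replicate q L.f) (G.nu (G.fw (G.fw x))) := by
      simp only [blkB, if_true, act_append]
      rfl
    rw [h1]
    have h2 := walkB_rep G q (G.nu (G.fw (G.fw x)))
    simpa [pB, walkB, bwd] using h2

theorem walkB_ppB (G : CG V) (q : ℕ) (l : List Bool) (x : V) :
    walkB G (ppB q l) (true, x) = (true, act G (wB q l) x) := by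
  induction l generalizing x with
  | nil => rfl
  | cons β l ih => rw [ppB, walkB_append, walkB_pB G q, ih, wB, act_append]

theorem Z_walkB {G : CG V} {Z : V → Bool} : ∀ (l l' : List Bool) (h : WS V),
    avoidB G Z (l ++ l') h → Z (walkB G l h).2 = false
  | [], [], _, h1 => h1
  | [], _ :: _, _, h1 => h1.1
  | _ :: l, l', _, h1 => Z_walkB l l' _ h1.2

/-! ### words of lines -/

/-- `(bnfn)^k` -/
def lw : ℕ → List L
  | 0 => []
  | k + 1 => L.b :: L.n :: L.f :: L.n :: lw k

/-- `(nbnf)^k` -/
def lw' : ℕ → List L
  | 0 => []
  | k + 1 => L.n :: L.b :: L.n :: L.f :: lw' k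

theorem red_lw : ∀ k : ℕ, Red (lw k)
  | 0 => trivial
  | 1 => ⟨by decide, by decide, by decide, trivial⟩
  | k + 2 => ⟨by decide, by decide, by decide, by decide, red_lw (k + 1)⟩

theorem red_lw' : ∀ k : ℕ, Red (lw' k)
  | 0 => trivial
  | 1 => ⟨by decide, by decide, by decide, trivial⟩
  | k + 2 => ⟨by decide, by decide, by decide, by decide, red_lw' (k + 1)⟩

theorem length_lw (k : ℕ) : (lw k).length = 4 * k := by
  induction k with
  | zero => rfl
  | succ k ih => simp [lw, ih]; ring

theorem length_lw' (k : ℕ) : (lw' k).length = 4 * k := by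
  induction k with
  | zero => rfl
  | succ k ih => simp [lw', ih]; ring

theorem act_lw_succ (G : CG V) (k : ℕ) (x : V) :
    act G (lw (k + 1)) x = act G (lw k) (Tm G (G.nu x)) := by
  induction k with
  | zero => rfl
  | succ k ih =>
    rw [lw]
    simp only [act_cons]
    rw [ih]
    rfl

theorem act_lw'_succ (G : CG V) (k : ℕ) (x : V) :
    act G (lw' (k + 1)) x = act G (lw' k) (G.nu (Tm G x)) := by
  induction k with
  | zero => rfl
  | succ k ih =>
    rw [lw']
    simp only [act_cons]
    rw [ih]
    rfl

theorem ok_false_of_Z (G : CG V) (Z : V → Bool) (β : Bool) (x : V) (h : Z x = true) :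
    ok G Z β x = false := by
  cases β <;> simp [ok, h]

theorem ends_lw (G : CG V) (Z : V → Bool) : ∀ (k : ℕ) (x : V), Z (act G (lw k) x) = true →
    Ends G Z (2 * k) true x
  | 0, x, h => ok_false_of_Z G Z true x h
  | k + 1, x, h => by
    rw [act_lw_succ] at h
    exact Or.inr (Or.inr (ends_lw G Z k _ h))

theorem ends_lw' (G : CG V) (Z : V → Bool) : ∀ (k : ℕ) (x : V), Z (act G (lw' k) x) = true →
    Ends G Z (2 * k) false x
  | 0, x, h => ok_false_of_Z G Z false x h
  | k + 1, x, h => by
    rw [act_lw'_succ] at h
    exact Or.inr (Or.inr (ends_lw' G Z k _ h))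

theorem ends_succ (G : CG V) (Z : V → Bool) : ∀ (k : ℕ) (β : Bool) (x : V), Ends G Z k β x →
    Ends G Z (k + 1) β x
  | 0, _, _, h => Or.inl h
  | k + 1, β, _, h => h.imp id fun h' => ends_succ G Z k (!β) _ h'

theorem ends_mono (G : CG V) (Z : V → Bool) {k k' : ℕ} (hk : k ≤ k') {β : Bool} {x : V}
    (h : Ends G Z k β x) : Ends G Z k' β x := by
  induction hk with
  | refl => exact h
  | step _ ih => exact ends_succ G Z _ _ _ ih

/-! ### the families -/

/-- the four families of words -/
noncomputable def fam (D0 j : ℕ) (κ : Fin 4) : Finset (List L) :=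
  if κ = 0 then (bl j).image (wF (D0 + 3))
  else if κ = 1 then (bl j).image (wB (D0 + 1))
  else if κ = 2 then (range (2 ^ j)).image fun i => lw (i * (D0 + 3))
  else (range (2 ^ j)).image fun i => lw' (i * (D0 + 3))

/-- a family indexed by a finset -/
theorem fam_image {κ : Type} (S : Finset κ) (w : κ → List L) (D N m : ℕ) (hc : S.card = m)
    (hr : ∀ i ∈ S, Red (w i)) (hl : ∀ i ∈ S, (w i).length ≤ N)
    (hs : ∀ i ∈ S, ∀ i' ∈ S, i ≠ i' → Spread D (w i) (w i')) : Fam D N m (S.image w) := by
  refine ⟨?_, ?_, ?_, ?_⟩
  · rw [card_image_of_injOn, hc]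
    intro i hi i' hi' he
    by_contra hne
    exact (hs i hi i' hi' hne).ne he
  · intro W hW
    obtain ⟨i, hi, rfl⟩ := mem_image.1 hW
    exact hr i hi
  · intro W hW
    obtain ⟨i, hi, rfl⟩ := mem_image.1 hW
    exact hl i hi
  · intro W hW W' hW' hne
    obtain ⟨i, hi, rfl⟩ := mem_image.1 hW
    obtain ⟨i', hi', rfl⟩ := mem_image.1 hW'
    exact hs i hi i' hi' fun he => hne (by rw [he])

theorem fam_ok (D0 j : ℕ) (κ : Fin 4) :
    Fam D0 (4 * (D0 + 3) * 2 ^ j + 2 * j * (D0 + 3)) (2 ^ j) (fam D0 j κ) := by
  have hj : ∀ l ∈ bl j, l.length = j := fun l hl => (mem_bl j l).1 hl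
  fin_cases κ
  · apply fam_image _ _ _ _ _ (card_bl j)
    · intro l _
      exact red_wF _ (by omega) l
    · intro l hl
      have h1 := length_wF (D0 + 3) l
      rw [hj l hl] at h1
      have h2 : j * (D0 + 3 + 1) ≤ 2 * j * (D0 + 3) := by nlinarith
      omega
    · intro l hl l' hl' hne
      exact spread_of_Sp (red_wF _ (by omega) l) (red_wF _ (by omega) l')
        (sp_wF D0 _ (by omega) l l' (by rw [hj l hl, hj l' hl']) hne)
  · apply fam_image _ _ _ _ _ (card_bl j)
    · intro l _
      exact red_wB _ (by omega) l
    · intro l hl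
      have h1 := length_wB (D0 + 1) l
      rw [hj l hl] at h1
      have h2 : j * (D0 + 1 + 3) ≤ 2 * j * (D0 + 3) := by nlinarith
      omega
    · intro l hl l' hl' hne
      exact spread_of_Sp (red_wB _ (by omega) l) (red_wB _ (by omega) l')
        (sp_wB D0 _ (by omega) l l' (by rw [hj l hl, hj l' hl']) hne)
  · have key : ∀ i i' : ℕ, i < i' → Spread D0 (lw (i * (D0 + 3))) (lw (i' * (D0 + 3))) := by
      intro i i' hii
      apply spread_of_length (red_lw _)
      rw [length_lw, length_lw]
      nlinarith
    apply fam_image _ _ _ _ _ (card_range _)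
    · intro i _
      exact red_lw _
    · intro i hi
      rw [length_lw]
      have := mem_range.1 hi
      nlinarith
    · intro i _ i' _ hne
      rcases Nat.lt_or_gt_of_ne hne with h | h
      · exact key i i' h
      · exact (key i' i h).symm
  · have key : ∀ i i' : ℕ, i < i' → Spread D0 (lw' (i * (D0 + 3))) (lw' (i' * (D0 + 3))) := by
      intro i i' hii
      apply spread_of_length (red_lw' _)
      rw [length_lw', length_lw']
      nlinarith
    apply fam_image _ _ _ _ _ (card_range _)
    · intro i _
      exact red_lw' _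
    · intro i hi
      rw [length_lw']
      have := mem_range.1 hi
      nlinarith
    · intro i _ i' _ hne
      rcases Nat.lt_or_gt_of_ne hne with h | h
      · exact key i i' h
      · exact (key i' i h).symm

/-- hitting all families is enough -/
theorem fam_hit (D0 j : ℕ) (G : CG V) (Z : V → Bool)
    (hZ : ∀ (κ : Fin 4) (x : V), ∃ W ∈ fam D0 j κ, Z (act G W x) = true) :
    (∀ h : WS V, ∃ l : List Bool, l.length = j * (D0 + 3) + 1 ∧ ¬ avoidF G Z l h) ∧
    (∀ h : WS V, ∃ l : List Bool, l.length = j * (D0 + 3) + 1 ∧ ¬ avoidB G Z l h) ∧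
    (∀ (β : Bool) (x : V), Ends G Z (2 * (D0 + 3) * 2 ^ j) β x) := by
  refine ⟨?_, ?_, ?_⟩
  · have key : ∀ x : V, ∃ l : List Bool, l.length = j * (D0 + 3) ∧
        Z (walkF G l (true, x)).2 = true := by
      intro x
      obtain ⟨W, hW, hx⟩ := hZ 0 x
      obtain ⟨l, hl, rfl⟩ := mem_image.1 hW
      refine ⟨ppF (D0 + 3) l, ?_, ?_⟩
      · rw [length_ppF _ (by omega), (mem_bl j l).1 hl]
      · rw [walkF_ppF G _ (by omega)]
        exact hx
    rintro ⟨t, x⟩
    cases t
    · obtain ⟨l, h1, h2⟩ := key (G.bw x)
      refine ⟨true :: l, by simp [h1], ?_⟩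
      intro h
      have h3 := Z_walkF (true :: l) [] (false, x) (by simpa using h)
      have h4 : walkF G (true :: l) (false, x) = walkF G l (true, G.bw x) := rfl
      rw [h4, h2] at h3
      exact absurd h3 (by decide)
    · obtain ⟨l, h1, h2⟩ := key x
      refine ⟨l ++ [true], by simp [h1], ?_⟩
      intro h
      have h3 := Z_walkF l [true] (true, x) h
      rw [h2] at h3
      exact absurd h3 (by decide)
  · have key : ∀ x : V, ∃ l : List Bool, l.length = j * (D0 + 3) ∧
        Z (walkB G l (true, x)).2 = true := by
      intro x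
      obtain ⟨W, hW, hx⟩ := hZ 1 x
      obtain ⟨l, hl, rfl⟩ := mem_image.1 hW
      refine ⟨ppB (D0 + 1) l, ?_, ?_⟩
      · rw [length_ppB _, (mem_bl j l).1 hl]
      · rw [walkB_ppB G _]
        exact hx
    rintro ⟨t, x⟩
    cases t
    · obtain ⟨l, h1, h2⟩ := key (G.nu (G.fw x))
      refine ⟨true :: l, by simp [h1], ?_⟩
      intro h
      have h3 := Z_walkB (true :: l) [] (false, x) (by simpa using h)
      have h4 : walkB G (true :: l) (false, x) = walkB G l (true, G.nu (G.fw x)) := rfl
      rw [h4, h2] at h3
      exact absurd h3 (by decide)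
    · obtain ⟨l, h1, h2⟩ := key x
      refine ⟨l ++ [true], by simp [h1], ?_⟩
      intro h
      have h3 := Z_walkB l [true] (true, x) h
      rw [h2] at h3
      exact absurd h3 (by decide)
  · intro β x
    cases β
    · obtain ⟨W, hW, hx⟩ := hZ 3 x
      obtain ⟨i, hi, rfl⟩ := mem_image.1 hW
      have hi' := mem_range.1 hi
      refine ends_mono G Z ?_ (ends_lw' G Z _ x hx)
      nlinarith
    · obtain ⟨W, hW, hx⟩ := hZ 2 x
      obtain ⟨i, hi, rfl⟩ := mem_image.1 hW
      have hi' := mem_range.1 hi
      refine ends_mono G Z ?_ (ends_lw G Z _ x hx)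
      nlinarith

end Pool.Agent.Helper60.TC8
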