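import Pool.Agent.Helper60.TC8.STA1

/-!
Large girth cubic graphs are 4-total-colourable: existence of the centres by the local lemma.
-/

set_option autoImplicit false

namespace Pool.Agent.Helper60.TC8

open Pool.Agent.Helper86.TC8
open Finset
open scoped Classical

variable {V : Type}

/-! ### reduced words of bounded length -/

/-- the reduced words of length `k + 1` with head `a` -/
noncomputable def RW : ℕ → L → Finset (List L)
  | 0, a => {[a]}
  | k + 1, a => (RW k (k1 a) ∪ RW k (k2 a)).image (List.cons a)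

theorem mem_RW : ∀ (k : ℕ) (a : L) (w : List L),
    w ∈ RW k a ↔ Red w ∧ w.length = k + 1 ∧ w.head? = some a := by
  intro k
  induction k with
  | zero =>
    intro a w
    simp only [RW, mem_singleton]
    constructor
    · rintro rfl
      exact ⟨trivial, rfl, rfl⟩
    · rintro ⟨_, h2, h3⟩
      match w, h2, h3 with
      | [c], _, h3 =>
        simp at h3
        rw [h3]
  | succ k ih =>
    intro a w
    simp only [RW, mem_image, mem_union, ih]
    constructor
    · rintro ⟨u, hu, rfl⟩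
      rcases hu with ⟨h1, h2, h3⟩ | ⟨h1, h2, h3⟩
      · match u, h1, h2, h3 with
        | c :: u, h1, h2, h3 =>
          simp at h3
          subst h3
          refine ⟨⟨?_, h1⟩, by simpa using h2, rfl⟩
          intro he
          exact k1_ne_inv a (by rw [he, L.inv_inv, ← he])
      · match u, h1, h2, h3 with
        | c :: u, h1, h2, h3 =>
          simp at h3
          subst h3
          refine ⟨⟨?_, h1⟩, by simpa using h2, rfl⟩
          intro he
          exact k2_ne_inv a (by rw [he, L.inv_inv, ← he])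
    · rintro ⟨h1, h2, h3⟩
      match w, h1, h2, h3 with
      | a' :: c :: u, h1, h2, h3 =>
        simp at h3
        subst h3
        refine ⟨c :: u, ?_, rfl⟩
        rcases letter_cases a' c with hc | hc | hc
        · exact absurd (by rw [hc, L.inv_inv]) h1.1
        · exact Or.inl ⟨h1.2, by simpa using h2, by simp [hc]⟩
        · exact Or.inr ⟨h1.2, by simpa using h2, by simp [hc]⟩

theorem card_RW_le : ∀ (k : ℕ) (a : L), (RW k a).card ≤ 2 ^ k := by
  intro k
  induction k with
  | zero => intro a; simp [RW]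
  | succ k ih =>
    intro a
    have h1 := ih (k1 a)
    have h2 := ih (k2 a)
    have h3 := card_union_le (RW k (k1 a)) (RW k (k2 a))
    have h4 := card_image_le (s := RW k (k1 a) ∪ RW k (k2 a)) (f := List.cons a)
    simp only [RW]
    rw [pow_succ]
    omega

/-- the reduced nonempty words of length at most `D` -/
noncomputable def wd (D : ℕ) : Finset (List L) :=
  (range D).biUnion fun k => univ.biUnion fun a : L => RW k a

theorem mem_wd (D : ℕ) (w : List L) : w ∈ wd D ↔ Red w ∧ w ≠ [] ∧ w.length ≤ D := by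
  simp only [wd, mem_biUnion, mem_range, mem_univ, true_and, mem_RW]
  constructor
  · rintro ⟨k, hk, a, h1, h2, h3⟩
    refine ⟨h1, ?_, by omega⟩
    rintro rfl
    simp at h2
  · rintro ⟨h1, h2, h3⟩
    match w, h1, h2, h3 with
    | c :: u, h1, _, h3 =>
      simp at h3
      exact ⟨u.length, by omega, c, h1, by simp, rfl⟩

theorem card_wd_le (D : ℕ) : (wd D).card + 3 ≤ 3 * 2 ^ D := by
  induction D with
  | zero => simp [wd]
  | succ D ih =>
    have h1 : wd (D + 1) = (univ.biUnion fun a : L => RW D a) ∪ wd D := by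
      simp only [wd]
      rw [range_add_one, biUnion_insert]
    have h2 := card_union_le (univ.biUnion fun a : L => RW D a) (wd D)
    have h3 : (univ.biUnion fun a : L => RW D a).card ≤ 3 * 2 ^ D := by
      refine card_biUnion_le.trans ?_
      calc ∑ a : L, (RW D a).card ≤ ∑ _a : L, 2 ^ D := sum_le_sum fun a _ => card_RW_le D a
        _ = 3 * 2 ^ D := by
          rw [sum_const]
          rfl
    rw [h1, pow_succ]
    omega

/-- all reduced words of length at most `D` -/
noncomputable def uw (D : ℕ) : Finset (List L) := insert [] (wd D)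

theorem mem_uw (D : ℕ) (w : List L) : w ∈ uw D ↔ Red w ∧ w.length ≤ D := by
  rw [uw, mem_insert, mem_wd]
  constructor
  · rintro (rfl | ⟨h1, _, h3⟩)
    · exact ⟨trivial, by simp⟩
    · exact ⟨h1, h3⟩
  · rintro ⟨h1, h2⟩
    by_cases h : w = []
    · exact Or.inl h
    · exact Or.inr ⟨h1, h, h2⟩

theorem card_uw_le (D : ℕ) : (uw D).card ≤ 2 ^ (D + 2) := by
  have h1 := card_insert_le ([] : List L) (wd D)
  have h2 := card_wd_le D
  have h3 : 2 ^ (D + 2) = 4 * 2 ^ D := by ring
  rw [uw]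
  omega

/-! ### probability -/

theorem pr_not {ι : Type} [Fintype ι] (A : (ι → Bool) → Prop) :
    pr (fun ω => ¬ A ω) = 1 - pr A := by
  have h1 : (univ.filter A).card + (univ.filter fun ω => ¬ A ω).card =
      2 ^ Fintype.card ι := by
    rw [card_filter_add_card_filter_not, card_univ, Fintype.card_fun, Fintype.card_bool]
  have h2 : ((univ.filter A).card : ℝ) + ((univ.filter fun ω => ¬ A ω).card : ℝ) =
      (2 : ℝ) ^ Fintype.card ι := by
    exact_mod_cast h1
  have h3 : (0 : ℝ) < (2 : ℝ) ^ Fintype.card ι := by positivity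
  unfold pr
  rw [eq_sub_iff_add_eq, ← add_div, div_eq_one_iff_eq h3.ne', add_comm]
  convert h2

/-- independent events -/
theorem pr_prod (hPR : ST_PR) {ι κ : Type} [Fintype ι] (S : Finset κ)
    (A : κ → (ι → Bool) → Prop) (D : κ → Finset ι) (c : ℝ)
    (hD : ∀ i ∈ S, ∀ i' ∈ S, i ≠ i' → Disjoint (D i) (D i'))
    (hA : ∀ i ∈ S, ∀ ω ω', (∀ t ∈ D i, ω t = ω' t) → (A i ω ↔ A i ω'))
    (hc : ∀ i ∈ S, pr (A i) ≤ c) : pr (fun ω => ∀ i ∈ S, A i ω) ≤ c ^ S.card := by
  obtain ⟨_, p2, _, _, p5⟩ := hPR ι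
  induction S using Finset.induction_on with
  | empty =>
    simp only [card_empty, pow_zero]
    exact (p2 _).2
  | insert i S hi ih =>
    have e1 : (fun ω : ι → Bool => ∀ i' ∈ insert i S, A i' ω) =
        fun ω => A i ω ∧ ∀ i' ∈ S, A i' ω := by
      funext ω
      simp
    rw [e1, p5 (D i) (S.biUnion D) (A i) (fun ω => ∀ i' ∈ S, A i' ω), card_insert_of_notMem hi,
      pow_succ, mul_comm]
    · have h1 := ih (fun i1 h1 i2 h2 => hD i1 (mem_insert_of_mem h1) i2 (mem_insert_of_mem h2))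
        (fun i1 h1 => hA i1 (mem_insert_of_mem h1)) (fun i1 h1 => hc i1 (mem_insert_of_mem h1))
      have h2 := hc i (mem_insert_self i S)
      have h3 := (p2 (A i)).1
      have h4 := (p2 (fun ω => ∀ i' ∈ S, A i' ω)).1
      exact mul_le_mul h1 h2 h3 (h4.trans h1)
    · rw [disjoint_biUnion_right]
      intro i' hi'
      exact hD i (mem_insert_self i S) i' (mem_insert_of_mem hi') fun he => hi (he ▸ hi')
    · exact hA i (mem_insert_self i S)
    · intro ω ω' h
      constructor
      · intro hh i' hi'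
        exact (hA i' (mem_insert_of_mem hi') ω ω' fun t ht =>
          h t (mem_biUnion.2 ⟨i', hi', ht⟩)).1 (hh i' hi')
      · intro hh i' hi'
        exact (hA i' (mem_insert_of_mem hi') ω ω' fun t ht =>
          h t (mem_biUnion.2 ⟨i', hi', ht⟩)).2 (hh i' hi')

/-! ### labels and centres -/

/-- the label of a vertex -/
def lab (q : ℕ) (ω : V × Fin q → Bool) (v : V) : Prop := ∀ k : Fin q, ω (v, k) = true

/-- centres: labelled vertices without a labelled vertex nearby -/
def Zp (G : CG V) (D : ℕ) (ω : V × Fin (D + 3) → Bool) (y : V) : Prop :=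
  lab (D + 3) ω y ∧ ∀ w ∈ wd D, ¬ lab (D + 3) ω (act G w y)

/-- the ball -/
noncomputable def ball (G : CG V) (D : ℕ) (y : V) : Finset V := (uw D).image fun w => act G w y

theorem pr_lab (hPR : ST_PR) [Fintype V] (q : ℕ) (v : V) :
    pr (fun ω : V × Fin q → Bool => lab q ω v) = (1 / 2) ^ q := by
  obtain ⟨_, _, _, p4, _⟩ := hPR (V × Fin q)
  have h1 := p4 ((List.finRange q).map fun k => ((v, k), true)) (by
    rw [List.map_map]
    refine List.Nodup.map ?_ (List.nodup_finRange q)
    intro k k' h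
    simpa using h)
  rw [List.length_map, List.length_finRange] at h1
  rw [← h1]
  congr 1
  funext ω
  simp [lab]

theorem pr_Zp (hPR : ST_PR) [Fintype V] (G : CG V) (D : ℕ) (hfree : Free G D) (y : V) :
    (1 / 2 : ℝ) ^ (D + 4) ≤ pr (fun ω : V × Fin (D + 3) → Bool => Zp G D ω y) := by
  obtain ⟨_, _, p3, _, p5⟩ := hPR (V × Fin (D + 3))
  have hlab : ∀ (v : V) (ω ω' : V × Fin (D + 3) → Bool), (∀ k, ω (v, k) = ω' (v, k)) →
      (lab (D + 3) ω v ↔ lab (D + 3) ω' v) := by
    intro v ω ω' h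
    simp only [lab, h]
  have h1 : pr (fun ω : V × Fin (D + 3) → Bool => Zp G D ω y) =
      pr (fun ω : V × Fin (D + 3) → Bool => lab (D + 3) ω y) *
      pr (fun ω : V × Fin (D + 3) → Bool => ∀ w ∈ wd D, ¬ lab (D + 3) ω (act G w y)) := by
    apply p5 ({y} ×ˢ univ) (((wd D).image fun w => act G w y) ×ˢ univ)
    · rw [disjoint_product]
      left
      rw [disjoint_singleton_left, mem_image]
      rintro ⟨w, hw, he⟩
      obtain ⟨h1, h2, h3⟩ := (mem_wd D w).1 hw
      exact hfree w h1 h2 h3 y he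
    · intro ω ω' h
      exact hlab y ω ω' fun k => h (y, k) (by simp)
    · intro ω ω' h
      have h2 : ∀ w ∈ wd D, (lab (D + 3) ω (act G w y) ↔ lab (D + 3) ω' (act G w y)) := by
        intro w hw
        refine hlab _ ω ω' fun k => h _ ?_
        rw [mem_product]
        exact ⟨mem_image_of_mem _ hw, mem_univ _⟩
      constructor
      · intro h3 w hw h4
        exact h3 w hw ((h2 w hw).2 h4)
      · intro h3 w hw h4
        exact h3 w hw ((h2 w hw).1 h4)
  have h2 : (1 / 2 : ℝ) ≤
      pr (fun ω : V × Fin (D + 3) → Bool => ∀ w ∈ wd D, ¬ lab (D + 3) ω (act G w y)) := by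
    have h3 : pr (fun ω : V × Fin (D + 3) → Bool => ¬ ∀ w ∈ wd D, ¬ lab (D + 3) ω (act G w y)) ≤
        ∑ w ∈ wd D, pr (fun ω : V × Fin (D + 3) → Bool => lab (D + 3) ω (act G w y)) := by
      apply p3
      intro ω h
      push Not at h
      exact h
    rw [pr_not, sum_congr rfl fun w _ => pr_lab hPR (D + 3) (act G w y), sum_const,
      nsmul_eq_mul] at h3
    have h4 : ((wd D).card : ℝ) ≤ 3 * 2 ^ D := by
      have := card_wd_le D
      have h5 : (wd D).card ≤ 3 * 2 ^ D := by omega
      exact_mod_cast h5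
    have h5 : ((wd D).card : ℝ) * (1 / 2) ^ (D + 3) ≤ 3 / 8 := by
      calc ((wd D).card : ℝ) * (1 / 2) ^ (D + 3) ≤ (3 * 2 ^ D) * (1 / 2) ^ (D + 3) := by gcongr
        _ = 3 / 8 * (2 * (1 / 2)) ^ D := by
          rw [mul_pow, pow_add]
          ring
        _ = 3 / 8 := by norm_num
    linarith
  rw [h1, pr_lab hPR]
  calc (1 / 2 : ℝ) ^ (D + 4) = (1 / 2) ^ (D + 3) * (1 / 2) := by ring
    _ ≤ _ := by gcongr

theorem Zp_local (G : CG V) (D : ℕ) (y : V) (ω ω' : V × Fin (D + 3) → Bool)
    (h : ∀ t ∈ ball G D y ×ˢ (univ : Finset (Fin (D + 3))), ω t = ω' t) :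
    Zp G D ω y ↔ Zp G D ω' y := by
  have h1 : ∀ w ∈ uw D, (lab (D + 3) ω (act G w y) ↔ lab (D + 3) ω' (act G w y)) := by
    intro w hw
    have h2 : ∀ k, ω (act G w y, k) = ω' (act G w y, k) := by
      intro k
      apply h
      rw [mem_product]
      exact ⟨mem_image_of_mem _ hw, mem_univ _⟩
    simp only [lab, h2]
  have h0 := h1 [] (mem_insert_self _ _)
  simp only [act_nil] at h0
  have h2 : ∀ w ∈ wd D, (lab (D + 3) ω (act G w y) ↔ lab (D + 3) ω' (act G w y)) :=
    fun w hw => h1 w (mem_insert_of_mem hw)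
  unfold Zp
  rw [h0]
  constructor
  · rintro ⟨h3, h4⟩
    exact ⟨h3, fun w hw h5 => h4 w hw ((h2 w hw).2 h5)⟩
  · rintro ⟨h3, h4⟩
    exact ⟨h3, fun w hw h5 => h4 w hw ((h2 w hw).1 h5)⟩

theorem ball_disjoint (G : CG V) (D N : ℕ) (hfree : Free G (2 * N + 2 * D)) (x : V)
    {W W' : List L} (hl : W.length ≤ N) (hl' : W'.length ≤ N) (hs : Spread D W W') :
    Disjoint (ball G D (act G W x)) (ball G D (act G W' x)) := by
  rw [disjoint_left]
  intro v hv hv'
  obtain ⟨w, hw, h1⟩ := mem_image.1 hv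
  obtain ⟨w', hw', h2⟩ := mem_image.1 hv'
  have hw1 := (mem_uw D w).1 hw
  have hw2 := (mem_uw D w').1 hw'
  refine hs w w' hw1.2 hw2.2 (hfree.inj (red_rdc _) (red_rdc _) ?_ (x := x) ?_)
  · have a1 := length_rdc_le (w ++ W)
    have a2 := length_rdc_le (w' ++ W')
    rw [List.length_append] at a1 a2
    omega
  · rw [act_rdc, act_rdc, act_append, act_append, h1, h2]

theorem pr_bad (hPR : ST_PR) [Fintype V] (G : CG V) (D N m : ℕ)
    (hfree : Free G (2 * N + 2 * D)) (F : Finset (List L)) (hF : Fam D N m F) (x : V) :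
    pr (fun ω : V × Fin (D + 3) → Bool => ∀ W ∈ F, ¬ Zp G D ω (act G W x)) ≤
      (1 - (1 / 2 : ℝ) ^ (D + 4)) ^ m := by
  rw [← hF.card]
  apply pr_prod hPR F (fun W ω => ¬ Zp G D ω (act G W x))
    (fun W => ball G D (act G W x) ×ˢ (univ : Finset (Fin (D + 3))))
  · intro W hW W' hW' hne
    rw [disjoint_product]
    left
    exact ball_disjoint G D N hfree x (hF.len W hW) (hF.len W' hW') (hF.spread W hW W' hW' hne)
  · intro W _ ω ω' h
    rw [Zp_local G D _ ω ω' h]
  · intro W _
    rw [pr_not]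
    have := pr_Zp hPR G D (hfree.mono (by omega)) (act G W x)
    linarith

/-! ### the theorem -/

/-- the explored vertices of a family -/
noncomputable def XV (G : CG V) (D : ℕ) (F : Finset (List L)) (x : V) : Finset V :=
  F.biUnion fun W => ball G D (act G W x)

theorem card_XV_le (G : CG V) (D m : ℕ) (F : Finset (List L)) (hF : F.card = m) (x : V) :
    (XV G D F x).card ≤ m * 2 ^ (D + 2) := by
  rw [← hF]
  refine card_biUnion_le_card_mul _ _ _ fun W _ => ?_
  exact card_image_le.trans (card_uw_le D)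

theorem card_rev_le [Fintype V] (G : CG V) (D m : ℕ) (F : Finset (List L)) (hF : F.card = m)
    (v : V) : (univ.filter fun x => v ∈ XV G D F x).card ≤ m * 2 ^ (D + 2) := by
  have h1 : (univ.filter fun x => v ∈ XV G D F x) ⊆
      F.biUnion fun W => (uw D).biUnion fun w =>
        univ.filter fun x => act G w (act G W x) = v := by
    intro x hx
    rw [mem_filter] at hx
    obtain ⟨W, hW, h2⟩ := mem_biUnion.1 hx.2
    obtain ⟨w, hw, h3⟩ := mem_image.1 h2
    exact mem_biUnion.2 ⟨W, hW, mem_biUnion.2 ⟨w, hw, mem_filter.2 ⟨mem_univ _, h3⟩⟩⟩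
  refine (card_le_card h1).trans ?_
  rw [← hF]
  refine card_biUnion_le_card_mul _ _ _ fun W _ => ?_
  refine (card_biUnion_le_card_mul _ _ 1 fun w _ => ?_).trans ?_
  · rw [card_le_one]
    intro x hx x' hx'
    rw [mem_filter] at hx hx'
    exact act_inj G W (act_inj G w (hx.2.trans hx'.2.symm))
  · rw [mul_one]
    exact card_uw_le D

theorem st_STA (hL : ST_LLLA) (hPR : ST_PR) : ST_STA := by
  intro D0 j hD0 hnum V _ G hfree
  set N := 4 * (D0 + 3) * 2 ^ j + 2 * j * (D0 + 3) with hN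
  have hfree' : Free G (2 * N + 2 * D0) := hfree.mono (by rw [hN]; ring_nf; omega)
  set ρ : ℝ := (1 - (1 / 2 : ℝ) ^ (D0 + 4)) ^ (2 ^ j) with hρ
  have hρ0 : 0 ≤ ρ := by
    apply pow_nonneg
    have : (1 / 2 : ℝ) ^ (D0 + 4) ≤ 1 := pow_le_one₀ (by norm_num) (by norm_num)
    linarith
  set M : ℕ := 2 ^ j * 2 ^ (D0 + 2) * (D0 + 3) with hM
  obtain ⟨p1, p2, _, _, _⟩ := hPR (V × Fin (D0 + 3))
  have hx := hL (V × Fin (D0 + 3)) (Fin 4 × V)
    (fun q ω => ∀ W ∈ fam D0 j q.1, ¬ Zp G D0 ω (act G W q.2))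
    (fun q _ => XV G D0 (fam D0 j q.1) q.2 ×ˢ (univ : Finset (Fin (D0 + 3)))) M
    (by rw [hM]; exact Nat.mul_pos (by positivity) (by omega)) ?_ ?_ ?_
  · obtain ⟨ω, hω⟩ := hx
    have h1 : ∀ (κ : Fin 4) (x : V), ∃ W ∈ fam D0 j κ, decide (Zp G D0 ω (act G W x)) = true := by
      intro κ x
      have := hω (κ, x)
      push Not at this
      obtain ⟨W, hW, h⟩ := this
      exact ⟨W, hW, decide_eq_true h⟩
    refine ⟨fun y => decide (Zp G D0 ω y), ?_, fam_hit D0 j G _ h1⟩
    intro z w hz hw hne hl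
    have hz' : Zp G D0 ω z := of_decide_eq_true hz
    refine decide_eq_false fun h => ?_
    exact hz'.2 w ((mem_wd D0 w).2 ⟨hw, hne, hl⟩) h.1
  · intro q ω ω' h1 h2
    refine ⟨fun W hW h3 => h1 W hW ?_, rfl⟩
    refine (Zp_local G D0 _ ω ω' fun t ht => h2 t ?_).2 h3
    rw [mem_product] at ht ⊢
    exact ⟨mem_biUnion.2 ⟨W, hW, ht.1⟩, mem_univ _⟩
  · intro q ω _
    constructor
    · rw [card_product, card_univ, Fintype.card_fin, hM]
      gcongr
      exact card_XV_le G D0 _ _ (fam_ok D0 j q.1).card q.2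
    · have h1 : (fam D0 j q.1).Nonempty := by
        rw [← card_pos, (fam_ok D0 j q.1).card]
        positivity
      obtain ⟨W, hW⟩ := h1
      refine ⟨(act G W q.2, 0), ?_⟩
      rw [mem_product]
      exact ⟨mem_biUnion.2 ⟨W, hW, mem_image.2 ⟨[], mem_insert_self _ _, rfl⟩⟩, mem_univ _⟩
  · rintro ⟨v, k⟩
    have h1 : ∀ q : Fin 4 × V, pr (fun ω : V × Fin (D0 + 3) → Bool =>
        (∀ W ∈ fam D0 j q.1, ¬ Zp G D0 ω (act G W q.2)) ∧
        (v, k) ∈ XV G D0 (fam D0 j q.1) q.2 ×ˢ (univ : Finset (Fin (D0 + 3)))) ≤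
        if v ∈ XV G D0 (fam D0 j q.1) q.2 then ρ else 0 := by
      intro q
      split
      · exact (p1 _ _ fun ω h => h.1).trans
          (pr_bad hPR G D0 N (2 ^ j) hfree' _ (fam_ok D0 j q.1) q.2)
      · rename_i hv
        have h2 : (fun ω : V × Fin (D0 + 3) → Bool =>
            (∀ W ∈ fam D0 j q.1, ¬ Zp G D0 ω (act G W q.2)) ∧
            (v, k) ∈ XV G D0 (fam D0 j q.1) q.2 ×ˢ (univ : Finset (Fin (D0 + 3)))) =
            fun _ => False := by
          funext ω
          rw [mem_product]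
          simp [hv]
        rw [h2]
        simp [pr]
    refine (sum_le_sum fun q _ => h1 q).trans ?_
    rw [Fintype.sum_prod_type]
    have h2 : ∀ κ : Fin 4, ∑ x : V, (if v ∈ XV G D0 (fam D0 j κ) x then ρ else 0) ≤
        2 ^ j * 2 ^ (D0 + 2) * ρ := by
      intro κ
      rw [← sum_filter, sum_const, nsmul_eq_mul]
      gcongr
      have := card_rev_le G D0 _ _ (fam_ok D0 j κ).card v
      exact_mod_cast this
    refine (sum_le_sum fun κ _ => h2 κ).trans ?_
    rw [sum_const, card_univ, Fintype.card_fin, nsmul_eq_mul]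
    have hMpos : (0 : ℝ) < M := by
      rw [hM]
      push_cast
      positivity
    rw [le_div_iff₀ (by positivity)]
    have h3 : (1 - 1 / 2 ^ (D0 + 4) : ℝ) ^ (2 ^ j) = ρ := by
      rw [hρ, one_div_pow]
    rw [h3] at hnum
    refine le_trans (le_of_eq ?_) hnum
    rw [hM]
    push_cast
    ring

end Pool.Agent.Helper60.TC8
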